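import Mathlib
import Pool.Agent.X78.HlawkaU
import Pool.Agent.X78.HlawkaB

/-!
# Hlawka-type constants for Schatten `p`-norms: finite exactly for `1 < p < ∞`
-/

namespace Pool.Agent.Results.MP_1619cf_an.Finiteness

open Matrix Filter Topology
open Pool.Agent.X78.FurutaC Pool.Agent.X78.HlawkaA Pool.Agent.X78.HlawkaS
open Pool.Agent.X78.HlawkaM Pool.Agent.X78.HlawkaU
open scoped ENNReal NNReal ComplexOrder

/-- The inequality `D₃ ≤ C (D₂ + D₂ + D₂)` for the Schatten `p`-norm in all sizes. -/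
def HlawkaHolds (p C : ℝ) : Prop :=
  ∀ (N M : ℕ), 1 ≤ N → 1 ≤ M → ∀ X Y Z : Matrix (Fin N) (Fin M) ℂ,
    D3 p X Y Z ≤ C * (D2 p X Y + D2 p X Z + D2 p Y Z)

/-- The constant `C_p ∈ [0, ∞]`: the infimum of all admissible `C ≥ 0` (`∞` if there is none). -/
noncomputable def hlawkaConst (p : ℝ) : ℝ≥0∞ :=
  ⨅ (C : ℝ≥0) (_ : HlawkaHolds p C), (C : ℝ≥0∞)

lemma le_const {p : ℝ} {C : ℝ≥0} {N M : ℕ} (hN : 1 ≤ N) (hM : 1 ≤ M)
    {X Y Z : Matrix (Fin N) (Fin M) ℂ} (h0 : 0 ≤ D2 p X Y + D2 p X Z + D2 p Y Z)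
    (h : (C : ℝ) * (D2 p X Y + D2 p X Z + D2 p Y Z) < D3 p X Y Z) :
    (C : ℝ≥0∞) ≤ hlawkaConst p := by
  refine le_iInf₂ (fun C' hC' => ?_)
  by_contra hcon
  push Not at hcon
  have h1 : C' < C := by exact_mod_cast hcon
  have h2 : (C' : ℝ) ≤ C := by exact_mod_cast h1.le
  have h3 := hC' N M hN hM X Y Z
  have h4 := mul_le_mul_of_nonneg_right h2 h0
  linarith

lemma const_le {p : ℝ} (hp : 1 < p) :
    hlawkaConst p ≤ ENNReal.ofReal (8 * p ^ 2 / min 1 (p - 1)) := by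
  have hmin : 0 < min 1 (p - 1) := lt_min one_pos (by linarith)
  have h0 : 0 ≤ 8 * p ^ 2 / min 1 (p - 1) := by positivity
  have he : 8 * p ^ 2 / min 1 (p - 1) = 4 * p ^ 2 / lc p := by
    rw [lc]
    field_simp
    ring
  refine iInf₂_le_of_le (8 * p ^ 2 / min 1 (p - 1)).toNNReal ?_ le_rfl
  intro N M _ _ X Y Z
  rw [Real.coe_toNNReal _ h0, he]
  exact Pool.Agent.X78.HlawkaU.main hp X Y Z

lemma const_one : hlawkaConst 1 = ⊤ := by
  refine iInf₂_eq_top.2 (fun C hC => ?_)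
  exfalso
  obtain ⟨X, Y, Z, h⟩ := Pool.Agent.X78.HlawkaB.exists_example (C : ℝ)
  have := hC 3 3 (by norm_num) (by norm_num) X Y Z
  linarith

lemma schatten_cont {N M : ℕ} (X : Matrix (Fin N) (Fin M) ℂ) :
    ContinuousAt (fun p : ℝ => schatten p X) 1 := by
  unfold schatten
  have h1 : ContinuousAt (fun p : ℝ =>
      ∑ i, Real.sqrt ((isHermitian_conjTranspose_mul_self X).eigenvalues i) ^ p) 1 := by
    apply tendsto_finsetSum
    intro i _
    exact (Real.continuousAt_const_rpow' one_ne_zero)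
  have h2 : ContinuousAt (fun p : ℝ => 1 / p) 1 := by
    apply ContinuousAt.div continuousAt_const continuousAt_id
    norm_num
  exact h1.rpow h2 (Or.inr (by norm_num))

lemma tendsto_one : Tendsto hlawkaConst (𝓝[>] 1) (𝓝 ⊤) := by
  rw [ENNReal.tendsto_nhds_top_iff_nnreal]
  intro x
  obtain ⟨X, Y, Z, h⟩ := Pool.Agent.X78.HlawkaB.exists_example ((x + 1 : ℝ≥0) : ℝ)
  have hc : ContinuousAt (fun p : ℝ => D3 p X Y Z
      - ((x + 1 : ℝ≥0) : ℝ) * (D2 p X Y + D2 p X Z + D2 p Y Z)) 1 := by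
    unfold D3 D2
    have c1 := schatten_cont X
    have c2 := schatten_cont Y
    have c3 := schatten_cont Z
    have c4 := schatten_cont (X + Y)
    have c5 := schatten_cont (X + Z)
    have c6 := schatten_cont (Y + Z)
    have c7 := schatten_cont (X + Y + Z)
    exact (((c1.add c2).add c3).sub c7).sub (continuousAt_const.mul
      ((((c1.add c2).sub c4).add ((c1.add c3).sub c5)).add ((c2.add c3).sub c6)))
  have hpos : ∀ᶠ p in 𝓝 (1 : ℝ), 0 < D3 p X Y Z
      - ((x + 1 : ℝ≥0) : ℝ) * (D2 p X Y + D2 p X Z + D2 p Y Z) :=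
    hc.eventually (lt_mem_nhds (by linarith))
  filter_upwards [nhdsWithin_le_nhds hpos, self_mem_nhdsWithin] with p h1 h2
  have h2' : 1 < p := h2
  have h3 : ((x + 1 : ℝ≥0) : ℝ≥0∞) ≤ hlawkaConst p := by
    apply le_const (N := 3) (M := 3) (by norm_num) (by norm_num) (X := X) (Y := Y) (Z := Z)
    · have a1 := D2_nonneg h2' X Y
      have a2 := D2_nonneg h2' X Z
      have a3 := D2_nonneg h2' Y Z
      linarith
    · linarith
  refine lt_of_lt_of_le ?_ h3
  exact_mod_cast lt_add_one x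

/-- Schatten norm of a nonnegative diagonal matrix. -/
lemma schatten_diag {p : ℝ} (hp : 0 < p) {n : ℕ} {d : Fin n → ℝ} (hd : ∀ i, 0 ≤ d i) :
    schatten p (dg d) = (∑ i, d i ^ p) ^ (1 / p) := by
  obtain ⟨b, hb⟩ : ∃ b : Spec ((dg d)ᴴ * dg d),
    b = specOf (isHermitian_conjTranspose_mul_self (dg d)) := ⟨_, rfl⟩
  have hbl : ∀ i, (isHermitian_conjTranspose_mul_self (dg d)).eigenvalues i = b.l i := by
    intro i
    rw [hb]
    rfl
  have hb0 : ∀ i, 0 ≤ b.l i := by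
    intro i
    rw [← hbl]
    exact (posSemidef_conjTranspose_mul_self (dg d)).eigenvalues_nonneg i
  have h1 : (dg d)ᴴ * dg d = 1 * dg (fun i => d i ^ 2) * (1)ᴴ := by
    rw [dg, Matrix.diagonal_conjTranspose, Matrix.diagonal_mul_diagonal, dg]
    rw [one_mul, Matrix.conjTranspose_one, mul_one]
    congr 1
    ext i
    simp
    ring
  have h2 := Fp_eq (p / 2) b (by simp) (by simp) h1
  rw [schatten]
  congr 1
  have e1 : ∑ i, Real.sqrt ((isHermitian_conjTranspose_mul_self (dg d)).eigenvalues i) ^ p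
      = Fp (p / 2) b := by
    rw [Fp]
    apply Finset.sum_congr rfl
    intro i _
    rw [hbl, abs_of_nonneg (hb0 i), Real.sqrt_eq_rpow, ← Real.rpow_mul (hb0 i)]
    congr 1
    ring
  rw [e1, h2]
  apply Finset.sum_congr rfl
  intro i _
  rw [abs_of_nonneg (sq_nonneg _), ← Real.rpow_natCast, ← Real.rpow_mul (hd i)]
  congr 1
  push_cast
  ring

lemma dg_add {n : ℕ} (a b : Fin n → ℝ) : dg a + dg b = dg (fun i => a i + b i) := by
  rw [dg, dg, Matrix.diagonal_add, dg]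
  congr 1
  ext i
  push_cast
  rfl

lemma tendsto_top : Tendsto hlawkaConst atTop (𝓝 ⊤) := by
  rw [ENNReal.tendsto_nhds_top_iff_nnreal]
  intro x
  obtain ⟨C, hC⟩ : ∃ C : ℝ, C = ((x + 1 : ℝ≥0) : ℝ) := ⟨_, rfl⟩
  have hinv : Tendsto (fun p : ℝ => 1 / p) atTop (𝓝 0) := by
    simpa using tendsto_inv_atTop_zero (𝕜 := ℝ)
  have t2 : Tendsto (fun p : ℝ => (2 : ℝ) ^ (1 / p)) atTop (𝓝 1) := by
    have := (Real.continuousAt_const_rpow (a := 2) (b := 0) (by norm_num)).tendsto.comp hinv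
    simpa [Function.comp_def] using this
  have t3 : Tendsto (fun p : ℝ => (3 : ℝ) ^ (1 / p)) atTop (𝓝 1) := by
    have := (Real.continuousAt_const_rpow (a := 3) (b := 0) (by norm_num)).tendsto.comp hinv
    simpa [Function.comp_def] using this
  have hlim : Tendsto (fun p : ℝ => (3 * (2 : ℝ) ^ (1 / p) - 2 * (3 : ℝ) ^ (1 / p))
      - C * (3 * (2 * (2 : ℝ) ^ (1 / p) - 2))) atTop (𝓝 1) := by
    have := ((t2.const_mul 3).sub (t3.const_mul 2)).sub
      ((((t2.const_mul 2).sub_const 2).const_mul 3).const_mul C)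
    have e : (3 * (1 : ℝ) - 2 * 1) - C * (3 * (2 * 1 - 2)) = 1 := by ring
    rwa [e] at this
  have hev := hlim.eventually (lt_mem_nhds (zero_lt_one))
  filter_upwards [hev, eventually_gt_atTop (1 : ℝ)] with p h1 hp
  have hp0 : 0 < p := by linarith
  have n1 : schatten p (dg (![(1 : ℝ), 1, 0])) = 2 ^ (1 / p) := by
    rw [schatten_diag hp0 (by intro i; fin_cases i <;> simp)]
    congr 1
    simp [Fin.sum_univ_succ, Real.zero_rpow hp0.ne']
    norm_num
  have n2 : schatten p (dg (![(1 : ℝ), 0, 1])) = 2 ^ (1 / p) := by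
    rw [schatten_diag hp0 (by intro i; fin_cases i <;> simp)]
    congr 1
    simp [Fin.sum_univ_succ, Real.zero_rpow hp0.ne']
    norm_num
  have n3 : schatten p (dg (![(0 : ℝ), 1, 1])) = 2 ^ (1 / p) := by
    rw [schatten_diag hp0 (by intro i; fin_cases i <;> simp)]
    congr 1
    simp [Fin.sum_univ_succ, Real.zero_rpow hp0.ne']
    norm_num
  have big : ∀ S : ℝ, (2 : ℝ) ^ p ≤ S → 2 ≤ S ^ (1 / p) := by
    intro S hS
    have h2 := Real.rpow_le_rpow (by positivity) hS (by positivity : 0 ≤ 1 / p)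
    rwa [← Real.rpow_mul (by norm_num), mul_one_div_cancel hp0.ne', Real.rpow_one] at h2
  have n12 : 2 ≤ schatten p (dg (![(1 : ℝ), 1, 0]) + dg (![(1 : ℝ), 0, 1])) := by
    rw [dg_add, schatten_diag hp0 (by intro i; fin_cases i <;> simp)]
    apply big
    simp [Fin.sum_univ_succ]
    norm_num
  have n13 : 2 ≤ schatten p (dg (![(1 : ℝ), 1, 0]) + dg (![(0 : ℝ), 1, 1])) := by
    rw [dg_add, schatten_diag hp0 (by intro i; fin_cases i <;> simp)]
    apply big
    simp [Fin.sum_univ_succ]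
    norm_num
    linarith
  have n23 : 2 ≤ schatten p (dg (![(1 : ℝ), 0, 1]) + dg (![(0 : ℝ), 1, 1])) := by
    rw [dg_add, schatten_diag hp0 (by intro i; fin_cases i <;> simp)]
    apply big
    simp [Fin.sum_univ_succ]
    norm_num
    linarith
  have n123 : schatten p (dg (![(1 : ℝ), 1, 0]) + dg (![(1 : ℝ), 0, 1])
      + dg (![(0 : ℝ), 1, 1])) = 2 * 3 ^ (1 / p) := by
    rw [dg_add, dg_add, schatten_diag hp0 (by intro i; fin_cases i <;> simp <;> norm_num)]
    have h2 : (2 : ℝ) = (2 ^ p) ^ (1 / p) := by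
      rw [← Real.rpow_mul (by norm_num), mul_one_div_cancel hp0.ne', Real.rpow_one]
    have h3 : (2 * 3 ^ (1 / p) : ℝ) = (2 ^ p * 3) ^ (1 / p) := by
      rw [Real.mul_rpow (by positivity) (by norm_num), ← h2]
    rw [h3]
    congr 1
    simp [Fin.sum_univ_succ]
    norm_num
    ring
  have h3 : ((x + 1 : ℝ≥0) : ℝ≥0∞) ≤ hlawkaConst p := by
    apply le_const (N := 3) (M := 3) (by norm_num) (by norm_num)
      (X := dg (![(1 : ℝ), 1, 0])) (Y := dg (![(1 : ℝ), 0, 1])) (Z := dg (![(0 : ℝ), 1, 1]))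
    · have a1 := D2_nonneg hp (dg (![(1 : ℝ), 1, 0])) (dg (![(1 : ℝ), 0, 1]))
      have a2 := D2_nonneg hp (dg (![(1 : ℝ), 1, 0])) (dg (![(0 : ℝ), 1, 1]))
      have a3 := D2_nonneg hp (dg (![(1 : ℝ), 0, 1])) (dg (![(0 : ℝ), 1, 1]))
      linarith
    · rw [← hC]
      have hC0 : 0 ≤ C := by rw [hC]; positivity
      rw [D3, D2, D2, D2, n1, n2, n3, n123]
      have h4 : C * (2 ^ (1 / p) + 2 ^ (1 / p)
            - schatten p (dg (![(1 : ℝ), 1, 0]) + dg (![(1 : ℝ), 0, 1]))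
          + (2 ^ (1 / p) + 2 ^ (1 / p)
            - schatten p (dg (![(1 : ℝ), 1, 0]) + dg (![(0 : ℝ), 1, 1])))
          + (2 ^ (1 / p) + 2 ^ (1 / p)
            - schatten p (dg (![(1 : ℝ), 0, 1]) + dg (![(0 : ℝ), 1, 1]))))
          ≤ C * (3 * (2 * (2 : ℝ) ^ (1 / p) - 2)) :=
        mul_le_mul_of_nonneg_left (by linarith) hC0
      linarith
  refine lt_of_lt_of_le ?_ h3
  exact_mod_cast lt_add_one x

/-- **Hlawka-type constants of the Schatten classes.**  For real `p ≥ 1` the constant `C_p` is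
finite if and only if `p > 1`; quantitatively `C_p ≤ 8 p² / min(1, p-1)` for `p > 1`, while
`C_1 = ∞` (already for `3 × 3` matrices no finite constant works in the trace norm), and
`C_p → ∞` both as `p → 1⁺` and as `p → ∞`. -/
theorem result :
    (∀ p : ℝ, 1 ≤ p → (hlawkaConst p < ⊤ ↔ 1 < p)) ∧
    (∀ p : ℝ, 1 < p → hlawkaConst p ≤ ENNReal.ofReal (8 * p ^ 2 / min 1 (p - 1))) ∧
    hlawkaConst 1 = ⊤ ∧
    (∀ C : ℝ, ∃ X Y Z : Matrix (Fin 3) (Fin 3) ℂ,
      C * (D2 1 X Y + D2 1 X Z + D2 1 Y Z) < D3 1 X Y Z) ∧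
    Tendsto hlawkaConst (𝓝[>] 1) (𝓝 ⊤) ∧
    Tendsto hlawkaConst atTop (𝓝 ⊤) := by
  refine ⟨?_, fun p hp => const_le hp, const_one,
    Pool.Agent.X78.HlawkaB.exists_example, tendsto_one, tendsto_top⟩
  intro p hp
  constructor
  · intro h
    rcases hp.eq_or_lt with h1 | h1
    · rw [← h1, const_one] at h
      exact absurd h (lt_irrefl _)
    · exact h1
  · intro h
    exact lt_of_le_of_lt (const_le h) ENNReal.ofReal_lt_top

end Pool.Agent.Results.MP_1619cf_an.Finiteness
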